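import Mathlib
import Pool.Agent.Run7.h988.PY.Fin
import Pool.Agent.Run7.h988.PY.Gen

/-!
# Minimal failures of the parity conjecture in a Galois extension

`F/K` is a finite Galois extension of number fields with group `G` and `E/K` is an elliptic curve.
If the parity conjecture fails for `E` over `K`, it fails over an intermediate field `L` for which it
holds over every larger intermediate field, and the Galois group of `F/L` is of a very special kind.
-/

set_option autoImplicit false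

namespace Pool.Agent.Results.MP_02f36d_nt.MinimalFailures

open Pool.Agent.H541R3.ART Run7.h988.PY

/-- The Mordell-Weil group and the root numbers of an elliptic curve `E/K` along a finite Galois
extension `F/K` with group `G`; the subgroup `H` stands for the intermediate field `F^H`. -/
structure Curve (G : Type) [Group G] [Finite G] (V : Type) [AddCommGroup V] [Module ℚ V] where
  /-- the representation of `G` on `V = E(F) ⊗ ℚ` -/
  ρ : Representation ℚ G V
  /-- the root numbers `w(E/K, χ)` of the Artin twists by the irreducible characters of `G` -/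
  w : (G → ℂ) → ℂ
  /-- the root number `w(E/F^H)` -/
  W : Subgroup G → ℂ
  /-- the root numbers of the twists by `χ` and by the complex conjugate of `χ` have product `1` -/
  dual : ∀ χ ∈ Irr G, w χ * w (fun g => (starRingEnd ℂ) (χ g)) = 1
  /-- Galois invariance (Rohrlich): for a real valued character `χ`, the twists by `χ` and by its
  conjugate `g ↦ χ (g ^ k)` have the same root number -/
  galois : ∀ χ ∈ Irr G, (∀ g, (starRingEnd ℂ) (χ g) = χ g) → ∀ k : ℕ, Nat.Coprime (Nat.card G) k →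
    w (fun g => χ (g ^ k)) = w χ
  /-- the root number over `F^H` is the product of the `w(E/K, χ)` to the power the dimension of the
  space of `H`-invariants of `χ` -/
  artin : ∀ H : Subgroup G, ∀ m : (G → ℂ) → ℕ,
    (∀ χ ∈ Irr G, (m χ : ℂ) = (Nat.card H : ℂ)⁻¹ * ∑ᶠ h : H, χ h) → W H = ∏ᶠ χ ∈ Irr G, w χ ^ m χ

variable {G : Type} [Group G] [Finite G] {V : Type} [AddCommGroup V] [Module ℚ V]

/-- the Mordell-Weil rank of `E` over `F^H`, the dimension of the `H`-invariants of `E(F) ⊗ ℚ` -/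
noncomputable def Curve.rank (E : Curve G V) (H : Subgroup G) : ℕ :=
  Module.finrank ℚ (Representation.invariants (E.ρ.comp H.subtype))

/-- the parity conjecture for `E` over `F^H` -/
def Curve.Parity (E : Curve G V) (H : Subgroup G) : Prop := (-1) ^ E.rank H = E.W H

/-- **Minimal failures of parity.** -/
theorem result [FiniteDimensional ℚ V] (E : Curve G V) (hE : ¬ E.Parity ⊤) :
    (∃ U C : Subgroup G, ¬ E.Parity U ∧ (∀ U' : Subgroup G, U' < U → E.Parity U') ∧
      C ≤ U ∧ IsCyclic C ∧ Odd (Nat.card C) ∧ (∀ u ∈ U, ∀ c ∈ C, u * c * u⁻¹ ∈ C) ∧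
      (∀ u ∈ U, ∃ j : ℕ, u ^ 2 ^ j ∈ C) ∧
      ∀ q : ℕ, q.Prime → q ∣ Nat.card C → ∀ k : ℕ, Nat.Coprime (Nat.card G) k →
        ∃ m : ℕ, Odd m ∧ ∃ u ∈ U, ∀ c ∈ C, c ^ q = 1 → u * c * u⁻¹ = c ^ k ^ m) ∧
    ∀ a : ℕ, (∀ g : G, (∃ b : ℕ, g ^ 2 ^ b = 1) → g ^ 2 ^ a = 1) →
      (∀ q : ℕ, q.Prime → q ≠ 2 → q ∣ Nat.card G → q ≡ 1 [MOD 2 ^ (a + 1)]) →
      ∃ U : Subgroup G, IsPGroup 2 U ∧ ¬ E.Parity U ∧ ∀ U' : Subgroup G, U' < U → E.Parity U' := by
  classical
  let τ : ℚ →+* ℂ := algebraMap ℚ ℂ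
  let D : G → ℂ := fun g => τ (E.ρ.character g) + Dw E.w g
  have hpar : ∀ H : Subgroup G, E.Parity H ↔ Ev D H := fun H => parity τ E.ρ E.w E.dual H (E.W H) (E.artin H)
  have hD : Pool.Agent.W446.AS.Virt D := by
    have h1 : D = (fun g => τ (E.ρ.character g)) + Dw E.w := rfl
    rw [h1]
    exact add_mem (virt_char τ E.ρ) (virt_Dw E.w)
  have hDk : ∀ k : ℕ, Nat.Coprime (Nat.card G) k → ∀ g, D (g ^ k) = D g := by
    intro k hk g
    change τ (E.ρ.character (g ^ k)) + Dw E.w (g ^ k) = _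
    rw [rat_pow τ E.ρ hk, Dw_pow E.w hk (fun χ hχ hre => E.galois χ hχ hre k hk)]
  have h0 : ¬ Ev D ⊤ := fun h => hE ((hpar ⊤).mpr h)
  refine ⟨?_, ?_⟩
  · obtain ⟨U, ⟨C, hCU, hC, hcop, hnorm, hpow⟩, hodd, hmin, hcrit⟩ := crit hD h0
    refine ⟨U, C, fun h => hodd ((hpar U).mp h), fun U' hU' => (hpar U').mpr (hmin U' hU'), hCU, hC,
      Nat.coprime_two_right.mp hcop, hnorm, hpow, ?_⟩
    intro q hq hqC k hk
    have hq2 : q ≠ 2 := by
      rintro rfl
      have h1 := Nat.dvd_gcd hqC dvd_rfl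
      rw [hcop] at h1
      exact absurd (Nat.le_of_dvd one_pos h1) (by norm_num)
    obtain ⟨m, hm, u, hu, huc⟩ := hcrit k hk (hDk k hk) q hq hq2 (hqC.trans (Subgroup.card_dvd_of_le hCU))
    exact ⟨m, hm, u, hu, fun c hc hcq => huc c (hCU hc) hcq⟩
  · intro a ha hq
    obtain ⟨k, hk, hord⟩ := exists_gen (Nat.card G) Nat.card_pos.ne'
    obtain ⟨U, hU, hodd, hmin⟩ := crit_two hD h0 a ha (fun q hq1 hq2 hq3 => ⟨k, hk, hDk k hk, by
      rw [hord q hq1 hq3]
      exact (Nat.modEq_iff_dvd' hq1.one_le).mp (hq q hq1 hq2 hq3).symm⟩)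
    exact ⟨U, hU, fun h => hodd ((hpar U).mp h), fun U' hU' => (hpar U').mpr (hmin U' hU')⟩

end Pool.Agent.Results.MP_02f36d_nt.MinimalFailures
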