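import Pool.Agent.Run7.h460.QD.NumF
import Pool.Agent.R432.JG.Common

/-!
# The parity conjecture over pure cubic fields and their composita, inside arbitrary dense sets

`E_n : y² + n y = x³` (`E_{n r³}` is isomorphic to `E_n`), `M` a finite set of primes `≡ 1` modulo `9`. The
number fields are `L = ℚ(∛l : l ∈ S)`, `S ⊆ M`, of degree `3 ^ |S|`; for `S` nonempty they are not Galois
over `ℚ`. `D` runs through the family of the squarefree numbers, prime to `3` and `M`, not `±1` modulo `9`,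
with exactly one prime factor `≡ 2` modulo `3`. The multipliers are the cube-free numbers prime to `M` all
of whose prime factors are `1` modulo `9`. `c = ∏_{i ≥ 1} (1 - 3^{-i}) = 0.5601...`.

`Parity M n`: for all `S ⊆ M` the parity conjecture holds for `E_n` over `L = ℚ(∛l : l ∈ S)`; more precisely
the rank over `L` is zero, the `L`-function of `E_n` over `L` (with all Euler factors) has a meromorphic
continuation to `ℂ` which is analytic and not zero at `s = 1`, and every sign `w` with which its product with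
the usual Gamma factors and a conductor factor satisfies the functional equation `s → 2 - s` is `(-1)^rank`.

* Let `A` be an arbitrary subset of the family, of upper density at least `δ`, and `T` a finite set of
  multipliers. For all but at most `4 |T|² 9 ^ |M| / ε²` multipliers `m` (a bound independent of `A`) the
  `D ∈ A` with `Parity M (D m t)` for all `t ∈ T` have upper density at least `δ c ^ (|T| 3 ^ |M|) - ε`.
* If `A` is the whole family, then without exceptions the lower density is at least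
  `c ^ (|T| 3 ^ |M|)`.

The arithmetic over `L` is that of the starting project R432/JG (project JL: helper962, helper159,
helper152, helper916, helper258, helper432). The passage to dense sets is the second moment method, after
helper428. Over `ℚ` see `MP_577099_nt/ParityInDenseSets`.
-/

set_option autoImplicit false

open scoped Classical
open Filter Topology NumberField IsDedekindDomain

namespace Pool.Agent.Results.MP_02f36d_nt.TwistsInDenseSets

open Pool.Agent.H341R2.EC (IsMinAt)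
open Pool.Agent.R433.MD (lf)

/-- The curve `E_n : y² + n y = x³` over `L`. -/
def curve (n : ℕ) (L : Type) [Field L] : WeierstrassCurve L := ⟨0, 0, (n : L), 0, 0⟩

/-- The family: `D` is squarefree, not divisible by `3` and by the elements of `M`, not `±1` modulo `9`,
and divisible by exactly one prime that is `2` modulo `3`. -/
def Family (M : Finset ℕ) (D : ℕ) : Prop :=
  Squarefree D ∧ ¬ 3 ∣ D ∧ D % 9 ≠ 1 ∧ D % 9 ≠ 8 ∧ (∀ l ∈ M, ¬ l ∣ D) ∧
    ∃ q : ℕ, q.Prime ∧ q % 3 = 2 ∧ q ∣ D ∧ ∀ p : ℕ, p.Prime → p ∣ D → p ≠ q → p % 3 = 1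

/-- The multipliers: cube-free numbers not divisible by the elements of `M`, all of whose prime factors
are `1` modulo `9`. -/
def IsMultiplier (M : Finset ℕ) (m : ℕ) : Prop :=
  m ≠ 0 ∧ (∀ p : ℕ, p.Prime → ¬ p ^ 3 ∣ m) ∧ (∀ p : ℕ, p.Prime → p ∣ m → p % 9 = 1) ∧
    ∀ l ∈ M, ¬ l ∣ m

/-- The cube-free part of `n`: the exponents are reduced modulo `3`. -/
noncomputable def cubeFreePart (n : ℕ) : ℕ := n.factorization.prod fun p e => p ^ (e % 3)

/-- `L` is generated by cube roots of the elements of `S`. -/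
def Radical (S : Finset ℕ) (L : Type) [Field L] : Prop :=
  ∃ r : ℕ → L, (∀ l ∈ S, r l ^ 3 = (l : L)) ∧ ∀ F : Subfield L, (∀ l ∈ S, r l ∈ F) → F = ⊤

/-- `Λ` is a meromorphic continuation of the `L`-function of `E_n` over `L`: it is meromorphic on `ℂ`, and
for `Re s > 3 / 2` it is the product of the Euler factors of models of the curve that are minimal at the
finite places. -/
def IsLFunction (n : ℕ) (L : Type) [Field L] [NumberField L] (Λ : ℂ → ℂ) : Prop :=
  MeromorphicOn Λ Set.univ ∧ ∃ V : HeightOneSpectrum (𝓞 L) → WeierstrassCurve (𝓞 L),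
    (∀ v, IsMinAt (curve n L) v (V v)) ∧ ∀ s : ℂ, 3 / 2 < s.re →
      HasProd (fun v => (lf V s v)⁻¹) (Λ s)

/-- The completed `L`-function, up to a constant. -/
noncomputable def completed (N : ℝ) (d : ℕ) (Λ : ℂ → ℂ) (s : ℂ) : ℂ :=
  (N : ℂ) ^ (s / 2) * ((2 * Real.pi : ℂ) ^ (-s) * Complex.Gamma s) ^ d * Λ s

/-- `w` is a root number of `E_n` over `L`: a sign in the functional equation of the completed
`L`-function (at least near the centre `s = 1`) for some conductor factor `N`. -/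
def IsRootNumber (n : ℕ) (L : Type) [Field L] [NumberField L] (w : ℂ) : Prop :=
  ∃ (N : ℝ) (Λ : ℂ → ℂ), 0 < N ∧ IsLFunction n L Λ ∧ ∀ᶠ s in 𝓝[≠] (1 : ℂ),
    completed N (Module.finrank ℚ L) Λ s = w * completed N (Module.finrank ℚ L) Λ (2 - s)

/-- The Mordell-Weil rank of `E_n` over `L`. -/
noncomputable def rank (n : ℕ) (L : Type) [Field L] : ℕ :=
  Module.finrank ℤ (curve n L).toAffine.Point

/-- The parity conjecture for `E_n` over `L`, in the form: the rank is zero (`E_n(L)` is finite), the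
`L`-function has a meromorphic continuation which is analytic and not zero at `s = 1`, and every root
number is `(-1)^rank`. -/
def ParityOver (n : ℕ) (L : Type) [Field L] [NumberField L] : Prop :=
  Finite (curve n L).toAffine.Point ∧ rank n L = 0 ∧
    (∃ Λ : ℂ → ℂ, IsLFunction n L Λ ∧ AnalyticAt ℂ Λ 1 ∧ Λ 1 ≠ 0) ∧
    ∀ w : ℂ, IsRootNumber n L w → (-1) ^ rank n L = w

/-- The parity conjecture holds for `E_{n'}`, `n'` the cube-free part of `n`, over all the fields
`L = ℚ(∛l : l ∈ S)`, `S ⊆ M`. -/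
def Parity (M : Finset ℕ) (n : ℕ) : Prop :=
  ∀ S ⊆ M, ∀ (L : Type) [Field L] [NumberField L], Radical S L → ParityOver (cubeFreePart n) L

/-- The number of the `D ≤ X` of the family that belong to `A`. -/
noncomputable def count (M : Finset ℕ) (A : Set ℕ) (X : ℕ) : ℕ :=
  ((Finset.Icc 1 X).filter fun D => Family M D ∧ D ∈ A).card

/-- The upper density of `A` in the family is at least `δ`. -/
def UpperDensity (M : Finset ℕ) (A : Set ℕ) (δ : ℝ) : Prop :=
  ∀ ε : ℝ, 0 < ε → ∃ᶠ X : ℕ in atTop, (δ - ε) * (count M Set.univ X : ℝ) ≤ (count M A X : ℝ)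

/-- `c = ∏_{i ≥ 1} (1 - 3^{-i})`. -/
noncomputable def c : ℝ := ∏' i : ℕ, (1 - (1 / 3 : ℝ) ^ (i + 1))

section analysis

/-- Meromorphic functions on `ℂ` which agree on a half plane agree near `1`. -/
theorem mero_unique {f g : ℂ → ℂ} (hf : MeromorphicOn f Set.univ) (hg : MeromorphicOn g Set.univ)
    (h : ∀ s : ℂ, 3 / 2 < s.re → f s = g s) : ∀ᶠ s in 𝓝[≠] (1 : ℂ), f s = g s := by
  have hd : MeromorphicOn (f - g) Set.univ := hf.sub hg
  have h2 : meromorphicOrderAt (f - g) 2 = ⊤ := by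
    rw [meromorphicOrderAt_eq_top_iff]
    have h3 : ∀ᶠ s : ℂ in 𝓝 2, 3 / 2 < s.re :=
      Complex.continuous_re.continuousAt.eventually (lt_mem_nhds (by norm_num))
    filter_upwards [h3.filter_mono nhdsWithin_le_nhds] with s hs
    rw [Pi.sub_apply, h s hs, sub_self]
  have h1 : meromorphicOrderAt (f - g) 1 = ⊤ := by
    by_contra hcon
    exact hd.meromorphicOrderAt_ne_top_of_isPreconnected isPreconnected_univ (Set.mem_univ 1)
      (Set.mem_univ 2) hcon h2
  rw [meromorphicOrderAt_eq_top_iff] at h1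
  filter_upwards [h1] with s hs
  exact sub_eq_zero.1 hs

theorem completed_cont {N : ℝ} (hN : 0 < N) (d : ℕ) {Λ : ℂ → ℂ} (h : ContinuousAt Λ 1) :
    ContinuousAt (completed N d Λ) 1 := by
  have hN' : (N : ℂ) ≠ 0 := by exact_mod_cast hN.ne'
  have hpi : (2 * Real.pi : ℂ) ≠ 0 := by
    have := Real.pi_ne_zero
    exact_mod_cast mul_ne_zero two_ne_zero this
  have h1 : ContinuousAt (fun s : ℂ => (N : ℂ) ^ (s / 2)) 1 :=
    ContinuousAt.const_cpow (continuousAt_id.div_const 2) (Or.inl hN')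
  have h2 : ContinuousAt (fun s : ℂ => (2 * Real.pi : ℂ) ^ (-s)) 1 :=
    ContinuousAt.const_cpow continuousAt_id.neg (Or.inl hpi)
  have h3 : ContinuousAt Complex.Gamma 1 := by
    refine (Complex.differentiableAt_Gamma 1 fun m hm => ?_).continuousAt
    have h4 := congrArg Complex.re hm
    simp at h4
    have h5 : (0 : ℝ) ≤ m := Nat.cast_nonneg m
    linarith
  exact (h1.mul ((h2.mul h3).pow d)).mul h

theorem completed_one {N : ℝ} (hN : 0 < N) (d : ℕ) {Λ : ℂ → ℂ} (h : Λ 1 ≠ 0) :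
    completed N d Λ 1 ≠ 0 := by
  unfold completed
  refine mul_ne_zero (mul_ne_zero ?_ (pow_ne_zero _ (mul_ne_zero ?_ ?_))) h
  · rw [Complex.cpow_def_of_ne_zero (by exact_mod_cast hN.ne')]
    exact Complex.exp_ne_zero _
  · rw [Complex.cpow_def_of_ne_zero (by
      have := Real.pi_ne_zero
      exact_mod_cast mul_ne_zero two_ne_zero this)]
    exact Complex.exp_ne_zero _
  · rw [Complex.Gamma_one]
    exact one_ne_zero

theorem reflect : Tendsto (fun s : ℂ => 2 - s) (𝓝[≠] 1) (𝓝[≠] 1) := by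
  refine tendsto_nhdsWithin_iff.2 ⟨?_, ?_⟩
  · have h : Tendsto (fun s : ℂ => 2 - s) (𝓝 1) (𝓝 (2 - 1)) :=
      (continuous_const.sub continuous_id).tendsto 1
    have e : (2 : ℂ) - 1 = 1 := by norm_num
    rw [e] at h
    exact h.mono_left nhdsWithin_le_nhds
  · filter_upwards [self_mem_nhdsWithin] with s hs h1
    apply hs
    have h2 : (2 : ℂ) - s = 1 := h1
    show s = 1
    linear_combination -h2

/-- The sign is `1` if the `L`-function is not zero at the centre. -/
theorem sign_one {N : ℝ} (hN : 0 < N) (d : ℕ) {Λ Λ' : ℂ → ℂ} {w : ℂ} (h : AnalyticAt ℂ Λ 1)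
    (h0 : Λ 1 ≠ 0) (he : ∀ᶠ s in 𝓝[≠] (1 : ℂ), Λ' s = Λ s)
    (hfe : ∀ᶠ s in 𝓝[≠] (1 : ℂ), completed N d Λ' s = w * completed N d Λ' (2 - s)) : w = 1 := by
  have h1 : ∀ᶠ s in 𝓝[≠] (1 : ℂ), completed N d Λ s = w * completed N d Λ (2 - s) := by
    filter_upwards [hfe, he, reflect.eventually he] with s h2 h3 h4
    have e1 : completed N d Λ' s = completed N d Λ s := by
      unfold completed
      rw [h3]
    have e2 : completed N d Λ' (2 - s) = completed N d Λ (2 - s) := by
      unfold completed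
      rw [h4]
    rw [← e1, ← e2, h2]
  have hc := completed_cont hN d h.continuousAt
  have h2 : Tendsto (completed N d Λ) (𝓝[≠] 1) (𝓝 (completed N d Λ 1)) :=
    hc.tendsto.mono_left nhdsWithin_le_nhds
  have h3 : Tendsto (fun s => w * completed N d Λ (2 - s)) (𝓝[≠] 1)
      (𝓝 (w * completed N d Λ 1)) := (h2.comp reflect).const_mul w
  have h4 := tendsto_nhds_unique (h2.congr' h1) h3
  have h5 : (1 - w) * completed N d Λ 1 = 0 := by rw [sub_mul, one_mul, ← h4, sub_self]
  have h6 := (mul_eq_zero.1 h5).resolve_right (completed_one hN d h0)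
  linear_combination -h6

end analysis

section proof

open Run7.h460.JL.Mix (cn UD)
open Run7.h460.QD.Q (SC cf IsMult IsNine cn_card cn_univ tw_all AllGood mem_SC)
open Pool.Agent.R432.JG (Cl cl_iff Pre twN all_good full ell exists_gen)
open Pool.Agent.Y703.CT (NoSplit)

variable {M : Finset ℕ}

theorem fam_iff (D : ℕ) : Family M D ↔ Cl M D := by
  rw [cl_iff]
  unfold Family
  exact Iff.rfl

theorem mult_iff (m : ℕ) : IsMultiplier M m ↔ IsMult m ∧ ∀ l ∈ M, ¬ l ∣ m := by
  unfold IsMultiplier IsMult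
  tauto

theorem count_eq (A : Set ℕ) (X : ℕ) : (count M A X : ℝ) = cn (SC M X) A :=
  (cn_card fam_iff A X).symm

theorem count_univ (X : ℕ) : (count M Set.univ X : ℝ) = ((SC M X).card : ℝ) :=
  (count_eq _ _).trans (cn_univ X)

theorem ud_iff (A : Set ℕ) (δ : ℝ) : UpperDensity M A δ ↔ UD (SC M) A δ := by
  unfold UpperDensity UD
  simp only [count_eq, cn_univ]

theorem twN_ext {D : ℕ} {S : Finset ℕ} (h : S ⊆ M) (t : {l : ℕ // l ∈ S} → ZMod 3) :
    twN D M (fun l => if h : l.1 ∈ S then t ⟨l.1, h⟩ else 0) = twN D S t := by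
  unfold twN
  congr 1
  set g : ℕ → ℕ := fun l => l ^ (if h : l ∈ S then t ⟨l, h⟩ else 0 : ZMod 3).val with hg
  have h1 : ∏ i : {l : ℕ // l ∈ M}, i.1 ^ (if h : i.1 ∈ S then t ⟨i.1, h⟩ else 0 : ZMod 3).val =
      ∏ l ∈ M, g l := Finset.prod_coe_sort M g
  have h2 : ∏ i : {l : ℕ // l ∈ S}, i.1 ^ (t i).val = ∏ l ∈ S, g l := by
    rw [← Finset.prod_coe_sort S g]
    refine Finset.prod_congr rfl fun i _ => ?_
    rw [hg]
    simp only [i.2, dif_pos]
  rw [h1, h2]
  refine (Finset.prod_subset h fun l _ hl => ?_).symm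
  rw [hg]
  simp only [hl, not_false_eq_true, dif_neg, ZMod.val_zero, pow_zero]

theorem rank_zero (n : ℕ) (L : Type) [Field L] (h : Finite (curve n L).toAffine.Point) :
    rank n L = 0 := by
  unfold rank
  refine Module.finrank_eq_zero_of_rank_eq_zero (rank_eq_zero_iff.2 fun x => ?_)
  refine ⟨(Nat.card (curve n L).toAffine.Point : ℤ), by exact_mod_cast Nat.card_pos.ne', ?_⟩
  rw [natCast_zsmul]
  exact card_nsmul_eq_zero'

theorem parity_of (hM : ∀ l ∈ M, l.Prime ∧ l % 9 = 1) {D n : ℕ} (hD : Cl M D) (hn : IsNine n)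
    (hcop : ∀ l ∈ M, ¬ l ∣ n) (hg : AllGood M (D * n)) : Parity M (D * n) := by
  obtain ⟨hC, hP, -⟩ := tw_all hM hD hn hcop
  rintro S hS L _ _ ⟨r, hr, hgen⟩
  have hPS : Pre (cf (D * n)) S := ⟨fun l hl => hP.pr l (hS hl), fun l hl => hP.nine l (hS hl),
    fun l hl => hP.nd l (hS hl)⟩
  have hN : ∀ t : {l : ℕ // l ∈ S} → ZMod 3, NoSplit (twN (cf (D * n)) S t) := by
    intro t
    rw [← twN_ext hS t]
    exact hg _
  obtain ⟨-, h2, -, G, h4, h5, h6⟩ := all_good hC hPS hN r hr hgen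
  have hD0 : cf (D * n) ≠ 0 := by
    intro h0
    have h1 := hC.1
    rw [h0] at h1
    exact absurd h1.1 (by simp)
  have hB : 3 * cf (D * n) * ∏ l ∈ S, l ≠ 0 := mul_ne_zero (mul_ne_zero (by norm_num) hD0)
    (Finset.prod_ne_zero_iff.2 fun l hl => (hPS.pr l hl).ne_zero)
  obtain ⟨Λ, h7, h8, h9, h10⟩ := full (L := L) hB (Dvd.intro _ rfl) h4 h5 h6
  have h11 : ∀ V : HeightOneSpectrum (𝓞 L) → WeierstrassCurve (𝓞 L),
      (∀ v, IsMinAt (curve (cubeFreePart (D * n)) L) v (V v)) → ∀ s : ℂ, 3 / 2 < s.re →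
        HasProd (fun v => (lf V s v)⁻¹) (Λ s) := by
    intro V hV s hs
    rw [h10 V hV s hs]
    exact (Pool.Agent.R433.MD.hasProd_lf _ (ell hD0) V hV hs).1
  have hr0 := rank_zero (cubeFreePart (D * n)) L h2
  refine ⟨h2, hr0, ⟨Λ, ⟨h7, ?_⟩, h8, h9⟩, ?_⟩
  · obtain ⟨V, hV⟩ := Pool.Agent.R433.MD.exists_minimal (curve (cubeFreePart (D * n)) L) (ell hD0)
    exact ⟨V, hV, h11 V hV⟩
  · rintro w ⟨N, Λ', hN0, ⟨h12, V', hV', h13⟩, hfe⟩
    rw [hr0, pow_zero]
    refine (sign_one hN0 _ h8 h9 ?_ hfe).symm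
    refine mero_unique h12 h7 fun s hs => ?_
    exact (h13 s hs).unique (h11 V' hV' s hs)

end proof

open Run7.h460.JL.Mix (cn UD)
open Run7.h460.QD.Q (SC cf IsMult IsNine AllGood mem_SC)
open Pool.Agent.R432.JG (Cl cl_iff)

/-- **Main theorem.** -/
theorem result (M : Finset ℕ) (hM : ∀ l ∈ M, l.Prime ∧ l % 9 = 1) :
    (0.56 : ℝ) < c ∧ Tendsto (fun X => count M Set.univ X) atTop atTop ∧
    (∀ S : Finset ℕ, ∃ (L : Type) (_ : Field L) (_ : NumberField L), Radical S L) ∧
    -- dense sets, with an explicit number of exceptions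
    (∀ (A : Set ℕ) (δ : ℝ), UpperDensity M A δ →
      ∀ T : Finset ℕ, (∀ t ∈ T, IsMultiplier M t) → ∀ ε : ℝ, 0 < ε →
      ∀ F : Finset ℕ, (∀ m ∈ F, IsMultiplier M m) →
      4 * ((T.card : ℝ) * 3 ^ M.card) ^ 2 / ε ^ 2 < F.card →
      ∃ m ∈ F, UpperDensity M {D | D ∈ A ∧ ∀ t ∈ T, Parity M (D * (m * t))}
        (δ * c ^ (T.card * 3 ^ M.card) - ε)) ∧
    -- the whole family
    ∀ T : Finset ℕ, (∀ t ∈ T, IsMultiplier M t) → ∀ ε : ℝ, 0 < ε → ∀ᶠ X in atTop,
      (c ^ (T.card * 3 ^ M.card) - ε) * (count M Set.univ X : ℝ) ≤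
        (count M {D | ∀ t ∈ T, Parity M (D * t)} X : ℝ) := by
  refine ⟨Pool.Agent.R432.JG.c3_gt, ?_, fun S => ?_, ?_, ?_⟩
  · rw [← tendsto_natCast_atTop_iff (R := ℝ)]
    refine (Run7.h460.QD.Q.card_tendsto hM).congr fun X => ?_
    rw [count_univ]
  · obtain ⟨L, i1, i2, r, h1, h2⟩ := Pool.Agent.R432.JG.exists_gen S
    exact ⟨L, i1, i2, r, h1, h2⟩
  · intro A δ hA T hT ε hε F hF hc
    obtain ⟨m, hm, h⟩ := Run7.h460.QD.Q.mix_nf hM (fun t ht => (mult_iff t).1 (hT t ht))
      ((ud_iff A δ).1 hA) hε (fun m hm => (mult_iff m).1 (hF m hm)) hc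
    refine ⟨m, hm, (ud_iff _ _).2 ?_⟩
    have e : δ * c ^ (T.card * 3 ^ M.card) - ε =
        Pool.Agent.Y703.CX.c3 ^ (T.card * 3 ^ M.card) * δ - ε := by
      show δ * c ^ (T.card * 3 ^ M.card) - ε = c ^ (T.card * 3 ^ M.card) * δ - ε
      ring
    rw [e]
    refine Run7.h460.QD.Q.UD.congr' h fun X D hD hDA => ⟨hDA.1, fun t ht => ?_⟩
    have h1 := (mult_iff m).1 (hF m hm)
    have h2 := (mult_iff t).1 (hT t ht)
    refine parity_of hM (mem_SC hD) (h1.1.nine.mul h2.1.nine) (fun l hl hd => ?_) (hDA.2 t ht)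
    rcases (Nat.Prime.dvd_mul (hM l hl).1).1 hd with h3 | h3
    · exact h1.2 l hl h3
    · exact h2.2 l hl h3
  · intro T hT ε hε
    have h := Run7.h460.QD.Q.law_nf hM (fun t ht => (mult_iff t).1 (hT t ht))
    have h1 := h.eventually (lt_mem_nhds (show Pool.Agent.Y703.CX.c3 ^ (T.card * 3 ^ M.card) - ε <
      Pool.Agent.Y703.CX.c3 ^ (T.card * 3 ^ M.card) by linarith))
    filter_upwards [h1, Pool.Agent.R432.JG.ev_pos hM] with X hX hX0
    have hX0' : (0 : ℝ) < ((SC M X).card : ℝ) := hX0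
    rw [lt_div_iff₀ hX0'] at hX
    rw [count_univ, count_eq]
    refine hX.le.trans (Run7.h460.QD.Q.cn_le fun D hD hg t ht => ?_)
    have h2 := (mult_iff t).1 (hT t ht)
    exact parity_of hM (mem_SC hD) h2.1.nine h2.2 (hg t ht)

end Pool.Agent.Results.MP_02f36d_nt.TwistsInDenseSets
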